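import Pool.Agent.N71.PS.DStubs
import Pool.Agent.H38R2.CG.TB3c

/-!
# The local density at 2 (helper34)
-/

set_option autoImplicit false

namespace Pool.Agent.N71.PS.L2

open Finset Pool.Agent.N71.PS
open Pool.Agent.H38R2.CG.TB3ch (cnt cnt_two)

/-- squares modulo 16 -/
def Sq (c : ℕ) : Prop := c % 16 = 0 ∨ c % 16 = 1 ∨ c % 16 = 4 ∨ c % 16 = 9

instance (c : ℕ) : Decidable (Sq c) := by unfold Sq; infer_instance

/-- the bound for the local factor -/
def bb (r n v : ℕ) : ℕ :=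
  if v % 2 = 1 then (if Sq (4 * n + r * v ^ 2) then 4 else 0)
  else (if Sq (n + r * (v / 2) ^ 2) then 8 else 0)

/-- the local density as a natural number -/
def al2n (r n : ℕ) : ℕ :=
  if r % 8 = 1 then 1 else if r % 8 = 5 then 3 else
  if r % 16 = 12 then (if n % 4 = 1 then 4 else 0) else
  if n % 8 = 1 then 4 else if n % 8 = 5 then 0 else 2

theorem al2_eq (r n : ℕ) : al2 r n = (al2n r n : ℝ) := by
  unfold al2 al2n
  split_ifs <;> norm_num

theorem Sq_congr {c d : ℕ} (h : c ≡ d [MOD 16]) : Sq c ↔ Sq d := by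
  unfold Sq
  have : c % 16 = d % 16 := h
  rw [this]

theorem bb_mod (r n v : ℕ) : bb r n v = bb (r % 16) (n % 16) (v % 16) := by
  have hr : r % 16 ≡ r [MOD 16] := Nat.mod_modEq r 16
  have hn : n % 16 ≡ n [MOD 16] := Nat.mod_modEq n 16
  have hv : v % 16 ≡ v [MOD 16] := Nat.mod_modEq v 16
  have h2 : v % 16 % 2 = v % 2 := by omega
  have h3 : (v % 16 / 2) ^ 2 ≡ (v / 2) ^ 2 [MOD 16] := by
    obtain ⟨k, hk⟩ : ∃ k, v / 2 = v % 16 / 2 + 8 * k := ⟨v / 16, by omega⟩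
    rw [hk]
    have : (v % 16 / 2 + 8 * k) ^ 2 = (v % 16 / 2) ^ 2 + 16 * (k * (v % 16 / 2) + 4 * k ^ 2) := by
      ring
    rw [this]
    exact (Nat.modEq_iff_dvd' (Nat.le_add_right _ _)).2 ⟨_, by rw [Nat.add_sub_cancel_left]⟩
  unfold bb
  rw [h2]
  have e1 : Sq (4 * n + r * v ^ 2) ↔ Sq (4 * (n % 16) + r % 16 * (v % 16) ^ 2) :=
    Sq_congr ((hn.symm.mul_left 4).add (hr.symm.mul (hv.symm.pow 2)))
  have e2 : Sq (n + r * (v / 2) ^ 2) ↔ Sq (n % 16 + r % 16 * (v % 16 / 2) ^ 2) :=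
    Sq_congr (hn.symm.add (hr.symm.mul h3.symm))
  simp only [e1, e2]

theorem bb_per (r n v : ℕ) : bb r n (16 + v) = bb r n v := by
  rw [bb_mod, bb_mod r n v]
  congr 1
  omega

theorem sum_per (f : ℕ → ℕ) (hf : ∀ v, f (16 + v) = f v) (m : ℕ) :
    ∑ v ∈ range (16 * m), f v = m * ∑ v ∈ range 16, f v := by
  induction m with
  | zero => simp
  | succ m ih =>
    have e : 16 * (m + 1) = 16 + 16 * m := by ring
    rw [e, Finset.sum_range_add]
    simp_rw [hf]
    rw [ih]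
    ring

theorem al2n_mod (r n : ℕ) : al2n r n = al2n (r % 16) (n % 16) := by
  unfold al2n
  have h1 : r % 16 % 8 = r % 8 := by omega
  have h2 : n % 16 % 8 = n % 8 := by omega
  have h3 : n % 16 % 4 = n % 4 := by omega
  have h4 : r % 16 % 16 = r % 16 := by omega
  rw [h1, h2, h3, h4]

theorem fin_check : ∀ r ∈ range 16, ∀ n ∈ range 16, (r % 4 = 1 ∨ r = 8 ∨ r = 12) → n % 2 = 1 →
    ∑ v ∈ range 16, bb r n v ≤ 16 * al2n r n := by decide +kernel

theorem bb_sum (r n : ℕ) (hr : r % 4 = 1 ∨ r % 16 = 8 ∨ r % 16 = 12) (hn : ¬ 2 ∣ n) :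
    ∑ v ∈ range 16, bb r n v ≤ 16 * al2n r n := by
  rw [al2n_mod]
  have h := fin_check (r % 16) (mem_range.2 (Nat.mod_lt _ (by norm_num))) (n % 16)
    (mem_range.2 (Nat.mod_lt _ (by norm_num))) (by omega) (by omega)
  refine le_trans (le_of_eq ?_) h
  refine sum_congr rfl fun v hv => ?_
  rw [mem_range] at hv
  rw [bb_mod, Nat.mod_eq_of_lt hv]

theorem cnt16 : ∀ c ∈ range 16, cnt c 16 ≤ if Sq c then 4 else 0 := by decide +kernel

theorem cnt64 : ∀ c ∈ range 16, cnt (4 * c) 64 ≤ 8 := by decide +kernel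

theorem cnt_congr {c d m : ℕ} (h : c ≡ d [MOD m]) : cnt c m = cnt d m := by
  unfold cnt
  congr 1
  apply Finset.filter_congr
  intro u _
  exact ⟨fun h1 => h1.trans h, fun h1 => h1.trans h.symm⟩

theorem cnt16' (c : ℕ) : cnt c 16 ≤ if Sq c then 4 else 0 := by
  have h := cnt16 (c % 16) (mem_range.2 (Nat.mod_lt _ (by norm_num)))
  rw [cnt_congr (Nat.mod_modEq c 16)] at h
  simpa only [Sq_congr (Nat.mod_modEq c 16)] using h

theorem cnt64' (c : ℕ) : cnt (4 * c) 64 ≤ 8 := by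
  have h := cnt64 (c % 16) (mem_range.2 (Nat.mod_lt _ (by norm_num)))
  have h2 : 4 * (c % 16) ≡ 4 * c [MOD 64] := by
    have := (Nat.mod_modEq c 16).mul_left' 4
    exact this
  rwa [cnt_congr h2] at h

/-- the count for even `v` -/
theorem cnt_even {c j : ℕ} (hj : 1 ≤ j) (hc : j = 1 ∨ ¬ 2 ∣ c) :
    cnt (4 * c) (2 ^ (4 + 2 * j)) ≤ if Sq c then 8 else 0 := by
  by_cases hS : Sq c
  · rw [if_pos hS]
    rcases hc with rfl | hc
    · exact cnt64' c
    · have e : 4 + 2 * j = 2 * (2 + j) := by ring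
      rw [e]
      exact cnt_two c _ hc
  · rw [if_neg hS]
    apply Nat.le_of_eq
    unfold cnt
    rw [Finset.card_eq_zero, Finset.filter_eq_empty_iff]
    intro u _ hu
    apply hS
    have h64 : (64 : ℕ) ∣ 2 ^ (4 + 2 * j) := by
      have : (64 : ℕ) = 2 ^ 6 := by norm_num
      rw [this]
      exact pow_dvd_pow 2 (by omega)
    have h1 : u ^ 2 ≡ 4 * c [MOD 64] := hu.of_dvd h64
    have h2 : 2 ∣ u := by
      have h3 : u ^ 2 ≡ 4 * c [MOD 2] := h1.of_dvd (by norm_num)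
      have h4 : 2 ∣ u ^ 2 := (h3.dvd_iff (dvd_refl 2)).2 ⟨2 * c, by ring⟩
      exact Nat.prime_two.dvd_of_dvd_pow h4
    obtain ⟨a, rfl⟩ := h2
    have h5 : 4 * a ^ 2 ≡ 4 * c [MOD 4 * 16] := by
      have e : (2 * a) ^ 2 = 4 * a ^ 2 := by ring
      rw [e] at h1
      exact h1
    have h6 : a ^ 2 ≡ c [MOD 16] := Nat.ModEq.mul_left_cancel' (by norm_num) h5
    rw [← Sq_congr h6]
    have h7 : ∀ b ∈ range 16, Sq (b ^ 2) := by decide +kernel
    rw [← Sq_congr ((Nat.mod_modEq a 16).pow 2)]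
    exact h7 _ (mem_range.2 (Nat.mod_lt _ (by norm_num)))

/-- the pointwise bound -/
theorem hp_le (r e n v : ℕ) (hr : r % 4 = 1 ∨ r % 16 = 8 ∨ r % 16 = 12) (hn : ¬ 2 ∣ n) :
    hp 2 4 r e n v ≤ (bb r n v : ℝ) := by
  unfold hp
  by_cases hv : 2 ^ (e + 1) ∣ v
  · rw [if_neg (by rw [not_not]; exact hv)]
    exact Nat.cast_nonneg _
  rw [if_pos hv]
  have hv0 : v ≠ 0 := by
    rintro rfl
    exact hv (dvd_zero _)
  have hcard : (((range (2 ^ (4 + 2 * v.factorization 2))).filter (fun u =>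
      u ^ 2 ≡ 4 * n + r * v ^ 2 [MOD 2 ^ (4 + 2 * v.factorization 2)])).card) =
      cnt (4 * n + r * v ^ 2) (2 ^ (4 + 2 * v.factorization 2)) := by
    unfold cnt
    congr
  rw [hcard]
  norm_cast
  unfold bb
  rcases Nat.mod_two_eq_zero_or_one v with h2 | h2
  · rw [if_neg (by omega)]
    obtain ⟨w, rfl⟩ : ∃ w, v = 2 * w := ⟨v / 2, by omega⟩
    have hw0 : w ≠ 0 := by rintro rfl; exact hv0 rfl
    have hf : (2 * w).factorization 2 = w.factorization 2 + 1 := by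
      rw [Nat.factorization_mul (by norm_num) hw0, Finsupp.add_apply,
        Nat.Prime.factorization_self Nat.prime_two, add_comm]
    have e1 : 4 * n + r * (2 * w) ^ 2 = 4 * (n + r * w ^ 2) := by ring
    have e2 : 2 * w / 2 = w := by omega
    rw [e1, e2, hf]
    refine cnt_even (by omega) ?_
    by_cases h0 : w.factorization 2 = 0
    · left; omega
    · right
      have h3 : 2 ∣ w := Nat.dvd_of_factorization_pos h0
      obtain ⟨x, rfl⟩ := h3
      intro h4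
      apply hn
      have e3 : r * (2 * x) ^ 2 = 2 * (2 * r * x ^ 2) := by ring
      rw [e3] at h4
      exact (Nat.dvd_add_left ⟨_, rfl⟩).1 h4
  · rw [if_pos h2]
    have hf : v.factorization 2 = 0 := Nat.factorization_eq_zero_of_not_dvd (by omega)
    rw [hf]
    exact cnt16' _

theorem per (r e n v : ℕ) : hp 2 4 r e n (v + 2 ^ (2 * e + 6)) = hp 2 4 r e n v := by
  have hd : ∀ k, k ≤ 2 * e + 6 → (2 ^ k ∣ v + 2 ^ (2 * e + 6) ↔ 2 ^ k ∣ v) := by
    intro k hk
    exact Nat.dvd_add_left (pow_dvd_pow 2 hk)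
  unfold hp
  by_cases hv : 2 ^ (e + 1) ∣ v
  · rw [if_neg (by rw [not_not]; exact (hd _ (by omega)).2 hv), if_neg (by rw [not_not]; exact hv)]
  · have hv' : ¬ 2 ^ (e + 1) ∣ v + 2 ^ (2 * e + 6) := fun h => hv ((hd _ (by omega)).1 h)
    have hv0 : v ≠ 0 := by
      rintro rfl
      exact hv (dvd_zero _)
    have hv0' : v + 2 ^ (2 * e + 6) ≠ 0 := (Nat.add_pos_right _ (by positivity)).ne'
    have hj : ∀ k, k ≤ 2 * e + 6 → (k ≤ (v + 2 ^ (2 * e + 6)).factorization 2 ↔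
        k ≤ v.factorization 2) := by
      intro k hk
      rw [← Nat.Prime.pow_dvd_iff_le_factorization Nat.prime_two hv0,
        ← Nat.Prime.pow_dvd_iff_le_factorization Nat.prime_two hv0']
      exact hd k hk
    have hle : v.factorization 2 ≤ e := by
      by_contra hcon
      exact hv ((Nat.Prime.pow_dvd_iff_le_factorization Nat.prime_two hv0).2 (by omega))
    have hf : (v + 2 ^ (2 * e + 6)).factorization 2 = v.factorization 2 := by
      have h1 := (hj (v.factorization 2) (by omega)).2 le_rfl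
      have h2 := (hj (v.factorization 2 + 1) (by omega))
      omega
    rw [if_pos hv', if_pos hv, hf]
    congr 2
    apply Finset.filter_congr
    intro u _
    have h3 : 4 * n + r * (v + 2 ^ (2 * e + 6)) ^ 2 ≡ 4 * n + r * v ^ 2
        [MOD 2 ^ (4 + 2 * v.factorization 2)] := by
      refine Nat.ModEq.add_left _ (Nat.ModEq.mul_left _ ?_)
      have e1 : (v + 2 ^ (2 * e + 6)) ^ 2 = v ^ 2 + 2 ^ (2 * e + 6) * (2 * v + 2 ^ (2 * e + 6)) := by
        ring
      rw [e1]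
      refine ((Nat.modEq_iff_dvd' (Nat.le_add_right _ _)).2 ?_).symm
      rw [Nat.add_sub_cancel_left]
      exact (pow_dvd_pow 2 (by omega)).mul_right _
    exact ⟨fun h => h.trans h3, fun h => h.trans h3.symm⟩

/-- D_L2 -/
theorem D_L2_true : D_L2 := by
  intro r e n hr hn
  refine ⟨per r e n, ?_⟩
  have e1 : 2 ^ (2 * e + 6) = 16 * 2 ^ (2 * e + 2) := by ring
  calc ∑ v ∈ range (2 ^ (2 * e + 6)), hp 2 4 r e n v
      ≤ ∑ v ∈ range (2 ^ (2 * e + 6)), (bb r n v : ℝ) :=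
        sum_le_sum fun v _ => hp_le r e n v hr hn
    _ = ((∑ v ∈ range (16 * 2 ^ (2 * e + 2)), bb r n v : ℕ) : ℝ) := by
        rw [e1]; push_cast; rfl
    _ = ((2 ^ (2 * e + 2) * ∑ v ∈ range 16, bb r n v : ℕ) : ℝ) := by
        rw [sum_per _ (bb_per r n)]
    _ ≤ ((2 ^ (2 * e + 2) * (16 * al2n r n) : ℕ) : ℝ) := by
        exact_mod_cast Nat.mul_le_mul_left _ (bb_sum r n hr hn)
    _ = al2 r n * (2 : ℝ) ^ (2 * e + 6) := by
        rw [al2_eq]
        push_cast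
        ring

end Pool.Agent.N71.PS.L2
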